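import Mathlib

/-! A connected finite graph has a closed walk which uses every dart exactly once. -/

set_option autoImplicit false

open Finset

namespace Pool.Agent.T9lead.Tour

variable {V : Type*} [Fintype V] [DecidableEq V] {G : SimpleGraph V} [DecidableRel G.Adj]

/-- closed walks whose darts are distinct and closed under reversal -/
def Good {u : V} (w : G.Walk u u) : Prop := w.darts.Nodup ∧ ∀ d ∈ w.darts, d.symm ∈ w.darts

lemma good_length {u : V} {w : G.Walk u u} (h : Good w) : w.length ≤ Fintype.card G.Dart := by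
  rw [← SimpleGraph.Walk.length_darts, ← List.toFinset_card_of_nodup h.1]
  exact Finset.card_le_univ _

lemma extend {u : V} (w : G.Walk u u) (h : Good w) (a b : V) (ha : a ∈ w.support) (hab : G.Adj a b)
    (hn : (⟨(a, b), hab⟩ : G.Dart) ∉ w.darts) :
    ∃ w' : G.Walk a a, Good w' ∧ w'.length = w.length + 2 := by
  set r := w.rotate a ha
  have hr : r.darts ~r w.darts := SimpleGraph.Walk.rotate_darts w a ha
  have hmem : ∀ d, d ∈ r.darts ↔ d ∈ w.darts := fun d => hr.perm.mem_iff
  have hnd : r.darts.Nodup := hr.perm.nodup_iff.2 h.1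
  refine ⟨SimpleGraph.Walk.cons hab (SimpleGraph.Walk.cons hab.symm r), ⟨?_, ?_⟩, ?_⟩
  · simp only [SimpleGraph.Walk.darts_cons, List.nodup_cons, List.mem_cons, hmem]
    refine ⟨?_, ?_, hnd⟩
    · rintro (h1 | h1)
      · have := congrArg (fun d : G.Dart => d.fst) h1
        exact hab.ne this
      · exact hn h1
    · intro h1
      exact hn (h.2 _ h1)
  · intro d hd
    simp only [SimpleGraph.Walk.darts_cons, List.mem_cons, hmem] at hd ⊢
    rcases hd with rfl | rfl | hd
    · right; left; rfl
    · left; rfl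
    · right; right; exact h.2 d hd
  · simp only [SimpleGraph.Walk.length_cons]
    have : r.length = w.length := SimpleGraph.Walk.length_rotate w a ha
    omega

/-- The tour. -/
theorem exists_tour (hG : G.Connected) :
    ∃ (u : V) (w : G.Walk u u), w.darts.Nodup ∧ ∀ d : G.Dart, d ∈ w.darts := by
  classical
  obtain ⟨u0⟩ := hG.nonempty
  let P : ℕ → Prop := fun n => ∃ (u : V) (w : G.Walk u u), Good w ∧ w.length = n
  have hP0 : P 0 := ⟨u0, SimpleGraph.Walk.nil, ⟨by simp, by simp⟩, rfl⟩
  have hb : ∀ n, P n → n ≤ Fintype.card G.Dart := by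
    rintro n ⟨u, w, hw, rfl⟩; exact good_length hw
  obtain ⟨n, hn, hmax⟩ : ∃ n, P n ∧ ∀ m, P m → m ≤ n := by
    refine ⟨Nat.findGreatest P (Fintype.card G.Dart), ?_, ?_⟩
    · exact Nat.findGreatest_spec (P := P) (m := 0) (Nat.zero_le _) hP0
    · intro m hm
      exact Nat.le_findGreatest (hb m hm) hm
  obtain ⟨u, w, hw, rfl⟩ := hn
  have hcov : ∀ a ∈ w.support, ∀ b (hab : G.Adj a b), (⟨(a, b), hab⟩ : G.Dart) ∈ w.darts := by
    intro a ha b hab
    by_contra hcon
    obtain ⟨w', hw', hl⟩ := extend w hw a b ha hab hcon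
    have := hmax _ ⟨a, w', hw', rfl⟩
    omega
  have hall : ∀ v, v ∈ w.support := by
    intro v
    obtain ⟨p⟩ := hG.preconnected u v
    have : ∀ {x y : V} (p : G.Walk x y), x ∈ w.support → y ∈ w.support := by
      intro x y p
      induction p with
      | nil => exact id
      | cons h p ih =>
        intro hx
        apply ih
        have := hcov _ hx _ h
        exact SimpleGraph.Walk.dart_snd_mem_support_of_mem_darts w this
    exact this p (SimpleGraph.Walk.start_mem_support w)
  exact ⟨u, w, hw.1, fun d => hcov d.fst (hall _) d.snd d.adj⟩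

lemma sum_darts_range {u v : V} (w : G.Walk u v) (F : V → V → ℝ) :
    (w.darts.map fun d => F d.fst d.snd).sum
      = ∑ i ∈ range w.length, F (w.getVert i) (w.getVert (i + 1)) := by
  induction w with
  | nil => simp
  | cons h p ih =>
    rw [SimpleGraph.Walk.darts_cons, List.map_cons, List.sum_cons, ih,
      SimpleGraph.Walk.length_cons, Finset.sum_range_succ', add_comm]
    simp

lemma sum_tour {u : V} {w : G.Walk u u} (h1 : w.darts.Nodup) (h2 : ∀ d : G.Dart, d ∈ w.darts)
    (F : V → V → ℝ) :
    ∑ i ∈ range w.length, F (w.getVert i) (w.getVert (i + 1))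
      = ∑ a, ∑ b, if G.Adj a b then F a b else 0 := by
  classical
  rw [← sum_darts_range, ← List.sum_toFinset _ h1]
  have : w.darts.toFinset = univ := by
    ext d; simp [h2 d]
  rw [this]
  have e : ∑ a, ∑ b, (if G.Adj a b then F a b else 0)
      = ∑ p ∈ (univ : Finset (V × V)).filter (fun p => G.Adj p.1 p.2), F p.1 p.2 := by
    rw [Finset.sum_filter, ← Finset.univ_product_univ, Finset.sum_product]
  rw [e]
  refine Finset.sum_bij (fun d _ => d.toProd) ?_ ?_ ?_ ?_
  · intro d _; simp [d.adj]
  · intro d _ d' _ h; exact SimpleGraph.Dart.ext _ _ h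
  · intro p hp
    simp only [mem_filter, mem_univ, true_and] at hp
    exact ⟨⟨p, hp⟩, mem_univ _, rfl⟩
  · intro d _; rfl

end Pool.Agent.T9lead.Tour
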