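import Mathlib

/-! Discrete Wirtinger inequality on the cycle `ZMod N`. -/

set_option autoImplicit false

open Finset ZMod
open scoped ZMod BigOperators

namespace Pool.Agent.T9lead.Wirt

variable {N : ℕ} [NeZero N]

lemma pairing (Φ Ψ : ZMod N → ℂ) : ∑ k, dft Φ k * Ψ k = ∑ j, Φ j * dft Ψ j := by
  simp only [dft_apply, smul_eq_mul, sum_mul, mul_sum]
  rw [sum_comm]
  refine sum_congr rfl fun j _ => sum_congr rfl fun k _ => ?_
  rw [mul_comm k j]; ring

lemma parseval_mul (Φ : ZMod N → ℂ) : ∑ k, dft Φ k * dft Φ (-k) = N * ∑ j, Φ j ^ 2 := by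
  have h : ∀ k, dft Φ (-k) = dft (fun j => Φ (-j)) k := fun k => by
    rw [dft_comp_neg]
  simp only [h]
  rw [pairing, mul_sum]
  refine sum_congr rfl fun j _ => ?_
  have h2 : dft (dft (fun j => Φ (-j))) j = (N : ℂ) * Φ j := by
    rw [dft_dft]; simp
  rw [h2]; ring

lemma conj_dft (g : ZMod N → ℝ) (k : ZMod N) :
    (starRingEnd ℂ) (dft (fun j => (g j : ℂ)) k) = dft (fun j => (g j : ℂ)) (-k) := by
  simp only [dft_apply, smul_eq_mul, map_sum, map_mul, Complex.conj_ofReal]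
  refine sum_congr rfl fun j _ => ?_
  congr 1
  rw [← AddChar.map_neg_eq_conj]
  congr 1; ring

lemma parseval (g : ZMod N → ℝ) :
    ∑ k, ‖dft (fun j => (g j : ℂ)) k‖ ^ 2 = N * ∑ j, g j ^ 2 := by
  have h := parseval_mul (fun j => (g j : ℂ))
  have h2 : ∀ k, dft (fun j => (g j : ℂ)) k * dft (fun j => (g j : ℂ)) (-k)
      = ((‖dft (fun j => (g j : ℂ)) k‖ ^ 2 : ℝ) : ℂ) := fun k => by
    rw [← conj_dft, Complex.mul_conj, Complex.normSq_eq_norm_sq]
  simp only [h2] at h
  exact_mod_cast h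

lemma dft_shift (Φ : ZMod N → ℂ) (k : ZMod N) :
    dft (fun j => Φ (j + 1)) k = stdAddChar k * dft Φ k := by
  simp only [dft_apply, smul_eq_mul, mul_sum]
  rw [← Equiv.sum_comp (Equiv.addRight (1 : ZMod N)) (fun j => stdAddChar k * (stdAddChar (-(j * k)) * Φ j))]
  refine sum_congr rfl fun j _ => ?_
  simp only [Equiv.coe_addRight]
  rw [← mul_assoc, ← AddChar.map_add_eq_mul]
  congr 2; ring

lemma norm_char_sub_one (k : ZMod N) :
    ‖(stdAddChar k : ℂ) - 1‖ ^ 2 = 2 - 2 * Real.cos (2 * Real.pi * (k.val / N)) := by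
  rw [stdAddChar_apply, toCircle_eq_circleExp, Circle.coe_exp, ← Complex.normSq_eq_norm_sq,
    Complex.normSq_apply]
  simp only [Complex.sub_re, Complex.sub_im, Complex.one_re, Complex.one_im]
  rw [Complex.exp_ofReal_mul_I_re, Complex.exp_ofReal_mul_I_im]
  nlinarith [Real.sin_sq_add_cos_sq (2 * Real.pi * (k.val / N))]

lemma cos_le (hN : 2 ≤ N) (k : ZMod N) (hk : k ≠ 0) :
    Real.cos (2 * Real.pi * (k.val / N)) ≤ Real.cos (2 * Real.pi / N) := by
  have hNpos : (0 : ℝ) < N := by positivity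
  have h1 : 1 ≤ k.val := by
    rw [Nat.one_le_iff_ne_zero]; rwa [Ne, ZMod.val_eq_zero]
  have h2 : k.val + 1 ≤ N := ZMod.val_lt k
  have h1' : (1 : ℝ) ≤ k.val := by exact_mod_cast h1
  have h2' : (k.val : ℝ) + 1 ≤ N := by exact_mod_cast h2
  have hpi := Real.pi_pos
  have hN2 : (2 : ℝ) ≤ N := by exact_mod_cast hN
  rcases le_total ((k.val : ℝ) / N) (1 / 2) with h | h
  · apply Real.cos_le_cos_of_nonneg_of_le_pi
    · positivity
    · nlinarith
    · rw [mul_div_assoc, mul_assoc]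
      have h3 : 1 / (N : ℝ) ≤ (k.val : ℝ) / N := div_le_div_of_nonneg_right h1' hNpos.le
      have h4 : Real.pi * (1 / (N : ℝ)) ≤ Real.pi * ((k.val : ℝ) / N) :=
        mul_le_mul_of_nonneg_left h3 hpi.le
      rw [mul_one_div] at h4
      linarith
  · have e : Real.cos (2 * Real.pi * (k.val / N)) = Real.cos (2 * Real.pi * (1 - k.val / N)) := by
      rw [← Real.cos_neg, ← Real.cos_add_two_pi]; congr 1; ring
    rw [e]
    apply Real.cos_le_cos_of_nonneg_of_le_pi
    · positivity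
    · nlinarith
    · rw [mul_div_assoc, mul_assoc]
      have h3 : 1 / (N : ℝ) ≤ 1 - (k.val : ℝ) / N := by
        rw [le_sub_iff_add_le, ← add_div, div_le_one hNpos]
        linarith
      have h4 : Real.pi * (1 / (N : ℝ)) ≤ Real.pi * (1 - (k.val : ℝ) / N) :=
        mul_le_mul_of_nonneg_left h3 hpi.le
      rw [mul_one_div] at h4
      linarith

/-- Wirtinger's inequality on the cycle. -/
theorem wirtinger (hN : 2 ≤ N) (g : ZMod N → ℝ) (h0 : ∑ j, g j = 0) :
    2 * (1 - Real.cos (2 * Real.pi / N)) * ∑ j, g j ^ 2 ≤ ∑ j, (g (j + 1) - g j) ^ 2 := by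
  have hNpos : (0 : ℝ) < N := by positivity
  have hp1 := parseval g
  have hp2 := parseval (fun j => g (j + 1) - g j)
  have hd : ∀ k, dft (fun j => ((g (j + 1) - g j : ℝ) : ℂ)) k
      = (stdAddChar k - 1) * dft (fun j => (g j : ℂ)) k := fun k => by
    have : (fun j : ZMod N => ((g (j + 1) - g j : ℝ) : ℂ))
        = (fun j => (fun i => (g i : ℂ)) (j + 1)) - fun j => (g j : ℂ) := by
      ext j; simp
    rw [this, map_sub, Pi.sub_apply]
    have h3 := dft_shift (fun i => (g i : ℂ)) k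
    beta_reduce at h3 ⊢
    rw [h3]; ring
  simp only [hd, norm_mul, mul_pow, norm_char_sub_one] at hp2
  have key : ∀ k : ZMod N, 2 * (1 - Real.cos (2 * Real.pi / N)) * ‖dft (fun j => (g j : ℂ)) k‖ ^ 2
      ≤ (2 - 2 * Real.cos (2 * Real.pi * (k.val / N))) * ‖dft (fun j => (g j : ℂ)) k‖ ^ 2 := by
    intro k
    rcases eq_or_ne k 0 with rfl | hk
    · have : dft (fun j => (g j : ℂ)) 0 = 0 := by
        rw [dft_apply_zero]; exact_mod_cast congrArg (fun x : ℝ => (x : ℂ)) h0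
      rw [this]; simp
    · apply mul_le_mul_of_nonneg_right _ (by positivity)
      have := cos_le hN k hk
      linarith
  have hs := sum_le_sum (fun k (_ : k ∈ (univ : Finset (ZMod N))) => key k)
  rw [← mul_sum, hp1, hp2] at hs
  have : N * (2 * (1 - Real.cos (2 * Real.pi / N)) * ∑ j, g j ^ 2) ≤ N * ∑ j, (g (j + 1) - g j) ^ 2 := by
    linarith
  exact le_of_mul_le_mul_left this hNpos

end Pool.Agent.T9lead.Wirt
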